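import Mathlib

set_option autoImplicit false

namespace Pool.Agent.H.MP_c9f8d2_co

open Finset
open scoped Classical

variable {V : Type} [Fintype V]

/-- positions from which Alice keeps every later back-degree plus one at most s -/
inductive AWin (H : SimpleGraph V) (s : ℕ) : Finset V → Bool → Prop
  | done (M : Finset V) (t : Bool) : M = univ → AWin H s M t
  | alice (M : Finset V) (v : V) : v ∉ M → (M.filter (H.Adj v)).card + 1 ≤ s →
      AWin H s (insert v M) false → AWin H s M true
  | bob (M : Finset V) : M ≠ univ → (∀ v, v ∉ M → (M.filter (H.Adj v)).card + 1 ≤ s) →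
      (∀ v, v ∉ M → AWin H s (insert v M) true) → AWin H s M false

section act
variable (H : SimpleGraph V) (r : V → ℕ)

def Inv (M A P : Finset V) (t : V → V) : Prop :=
  M ⊆ P ∧ (∀ z ∈ A, ∀ u, r u < r z → H.Adj z u → u ∉ M → r (t z) ≤ r u ∧ H.Adj z (t z)) ∧
  ∀ y, (A.filter (fun z => t z = y ∧ r y < r z)).card ≤ if y ∈ M then 2 else if y ∈ P then 1 else 0

variable {H r}

theorem Inv.self {M A P : Finset V} {t : V → V} {x : V} (h : Inv H r M A P t) (hx : x ∉ A)
    (hn : ∀ u, r u < r x → H.Adj x u → u ∈ M) :
    Inv H r M (insert x A) P (Function.update t x x) := by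
  obtain ⟨h1, h2, h3⟩ := h
  refine ⟨h1, ?_, ?_⟩
  · intro z hz u hu ha hM
    rcases mem_insert.1 hz with rfl | hz
    · exact absurd (hn u hu ha) hM
    · have : z ≠ x := fun e => hx (e ▸ hz)
      rw [Function.update_of_ne this]
      exact h2 z hz u hu ha hM
  · intro y
    refine le_trans (card_le_card ?_) (h3 y)
    intro z hz
    rw [mem_filter] at hz ⊢
    obtain ⟨hz, e, hl⟩ := hz
    rcases mem_insert.1 hz with rfl | hz
    · rw [Function.update_self] at e
      subst e
      omega
    · have : z ≠ x := fun e => hx (e ▸ hz)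
      rw [Function.update_of_ne this] at e
      exact ⟨hz, e, hl⟩

theorem Inv.grow {M A P M' P' : Finset V} {t : V → V} (h : Inv H r M A P t) (hM : M ⊆ M')
    (hP : P ⊆ P') (hMP : M' ⊆ P') : Inv H r M' A P' t := by
  obtain ⟨h1, h2, h3⟩ := h
  refine ⟨hMP, fun z hz u hu ha hm => h2 z hz u hu ha (fun e => hm (hM e)), fun y => ?_⟩
  refine le_trans (h3 y) ?_
  have a := @hM y
  have b := @hP y
  split_ifs <;> first | omega | tauto

theorem free {M A : Finset V} {t : V → V} (h : Inv H r M A A t) (hM : M ≠ univ) :
    ∃ y, y ∉ M ∧ ∃ A' t', Inv H r (insert y M) A' A' t' := by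
  have hne : (univ.filter (fun v => v ∉ M)).Nonempty := by
    by_contra hc
    apply hM
    rw [not_nonempty_iff_eq_empty, filter_eq_empty_iff] at hc
    exact eq_univ_iff_forall.2 fun v => by simpa using hc (mem_univ v)
  obtain ⟨y, hy, hmin⟩ := exists_min_image _ r hne
  have hy' : y ∉ M := (mem_filter.1 hy).2
  refine ⟨y, hy', ?_⟩
  by_cases hA : y ∈ A
  · exact ⟨A, t, h.grow (subset_insert _ _) subset_rfl (insert_subset hA h.1)⟩
  · refine ⟨insert y A, Function.update t y y, ?_⟩
    refine (h.self hA ?_).grow (subset_insert _ _) (subset_insert _ _)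
      (insert_subset_insert _ h.1)
    intro u hu _
    by_contra hc
    have := hmin u (mem_filter.2 ⟨mem_univ _, hc⟩)
    omega

theorem chain {M : Finset V} (hM : M ≠ univ) (n : ℕ) : ∀ (x : V) (A : Finset V) (t : V → V),
    r x = n → x ∉ A → Inv H r M A (insert x A) t →
    ∃ y, y ∉ M ∧ ∃ A' t', Inv H r (insert y M) A' A' t' := by
  induction n using Nat.strong_induction_on with
  | _ n ih =>
  intro x A t hn hx h
  by_cases hn : ∀ u, r u < r x → H.Adj x u → u ∈ M
  · exact free (h.self hx hn) hM
  · have hne : (univ.filter (fun u => r u < r x ∧ H.Adj x u ∧ u ∉ M)).Nonempty := by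
      push Not at hn
      obtain ⟨u, a, b, c⟩ := hn
      exact ⟨u, mem_filter.2 ⟨mem_univ _, a, b, c⟩⟩
    obtain ⟨s, hs, hmin⟩ := exists_min_image _ r hne
    obtain ⟨-, s1, s2, s3⟩ := mem_filter.1 hs
    obtain ⟨h1, h2, h3⟩ := h
    have k2 : ∀ z ∈ insert x A, ∀ u, r u < r z → H.Adj z u → u ∉ M →
        r (Function.update t x s z) ≤ r u ∧ H.Adj z (Function.update t x s z) := by
      intro z hz u hu ha hm
      rcases mem_insert.1 hz with rfl | hz
      · rw [Function.update_self]
        exact ⟨hmin u (mem_filter.2 ⟨mem_univ _, hu, ha, hm⟩), s2⟩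
      · have : z ≠ x := fun e => hx (e ▸ hz)
        rw [Function.update_of_ne this]
        exact h2 z hz u hu ha hm
    have k3 : ∀ y, ((insert x A).filter (fun z => Function.update t x s z = y ∧ r y < r z)).card
        ≤ (A.filter (fun z => t z = y ∧ r y < r z)).card + if y = s then 1 else 0 := by
      intro y
      split_ifs with e
      · refine le_trans (card_le_card ?_) (card_insert_le x _)
        intro z hz
        rw [mem_filter] at hz
        obtain ⟨hz, e, hl⟩ := hz
        rcases mem_insert.1 hz with rfl | hz
        · exact mem_insert_self _ _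
        · have : z ≠ x := fun e => hx (e ▸ hz)
          rw [Function.update_of_ne this] at e
          exact mem_insert_of_mem (mem_filter.2 ⟨hz, e, hl⟩)
      · refine card_le_card ?_
        intro z hz
        rw [mem_filter] at hz
        obtain ⟨hz, e', hl⟩ := hz
        rcases mem_insert.1 hz with rfl | hz
        · rw [Function.update_self] at e'
          exact absurd e'.symm e
        · have : z ≠ x := fun e => hx (e ▸ hz)
          rw [Function.update_of_ne this] at e'
          exact mem_filter.2 ⟨hz, e', hl⟩
    have hsx : s ≠ x := fun e => by rw [e] at s1; omega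
    by_cases hA : s ∈ A
    · refine ⟨s, s3, insert x A, Function.update t x s, insert_subset (mem_insert_of_mem hA) h1,
        fun z hz u hu ha hm => k2 z hz u hu ha (fun e => hm (mem_insert_of_mem e)), fun y => ?_⟩
      have a := k3 y
      have b := h3 y
      by_cases e : y = s
      · subst e
        simp only [mem_insert, true_or, if_true, s3, if_false, hA, or_true] at a b ⊢
        omega
      · simp only [mem_insert, e, false_or, if_false] at a b ⊢
        omega
    · refine ih (r s) (by omega) s (insert x A) (Function.update t x s) rfl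
        (by simp [hsx, hA]) ⟨h1.trans (subset_insert _ _), k2, fun y => ?_⟩
      have a := k3 y
      have b := h3 y
      by_cases e : y = s
      · subst e
        simp only [mem_insert, true_or, if_true, s3, if_false, hA, or_false, hsx] at a b ⊢
        omega
      · simp only [mem_insert, e, false_or, if_false] at a b ⊢
        omega

theorem respond {M A : Finset V} {t : V → V} (h : Inv H r M A A t) (b : V)
    (hM : insert b M ≠ univ) :
    ∃ y, y ∉ insert b M ∧ ∃ A' t', Inv H r (insert y (insert b M)) A' A' t' := by
  by_cases hb : b ∈ A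
  · exact free (h.grow (subset_insert _ _) subset_rfl (insert_subset hb h.1)) hM
  · exact chain hM _ b A t rfl hb
      (h.grow (subset_insert _ _) (subset_insert _ _) (insert_subset_insert _ h.1))

theorem win_of_bound (s : ℕ)
    (hb : ∀ M A t, Inv H r M A A t → ∀ u, u ∉ M → (M.filter (H.Adj u)).card + 2 ≤ s) :
    AWin H s ∅ true := by
  have key : ∀ n : ℕ, ∀ M A t, (univ \ M).card = n → Inv H r M A A t → AWin H s M false := by
    intro n
    induction n using Nat.strong_induction_on with
    | _ n ih =>
    intro M A t hn h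
    by_cases hM : M = univ
    · exact .done _ _ hM
    refine .bob _ hM (fun v hv => by have := hb M A t h v hv; omega) fun b hb' => ?_
    by_cases hM' : insert b M = univ
    · exact .done _ _ hM'
    obtain ⟨y, hy, A', t', h'⟩ := respond h b hM'
    refine .alice _ y hy ?_ (ih _ ?_ _ A' t' rfl h')
    · have := hb M A t h y (fun e => hy (mem_insert_of_mem e))
      have h2 : ((insert b M).filter (H.Adj y)).card ≤ (M.filter (H.Adj y)).card + 1 := by
        rw [filter_insert]
        split_ifs
        · exact card_insert_le _ _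
        · omega
      omega
    · rw [← hn]
      refine card_lt_card ⟨sdiff_subset_sdiff subset_rfl
        ((subset_insert _ _).trans (subset_insert _ _)), fun hc => ?_⟩
      have := hc (mem_sdiff.2 ⟨mem_univ b, hb'⟩)
      simp at this
  have h0 : Inv H r ∅ ∅ ∅ id := ⟨subset_rfl, by simp, by simp⟩
  by_cases hM : (∅ : Finset V) = univ
  · exact .done _ _ hM
  obtain ⟨y, hy, A', t', h'⟩ := free h0 hM
  refine .alice _ y hy ?_ (key _ _ A' t' rfl h')
  have := hb _ _ _ h0 y hy
  omega

end act

/-- degeneracy order -/
theorem exists_order (B : V → Finset V) (c : ℕ) (hB : ∀ v, (B v).card ≤ c) :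
    ∃ r : V → ℕ, Function.Injective r ∧
      ∀ x, (univ.filter (fun y => r y ≤ r x ∧ x ∈ B y)).card ≤ c := by
  have key : ∀ n : ℕ, ∀ S : Finset V, S.card = n → ∃ r : V → ℕ, Set.InjOn r S ∧
      (∀ x ∈ S, r x < n) ∧ ∀ x ∈ S, (S.filter (fun y => r y ≤ r x ∧ x ∈ B y)).card ≤ c := by
    intro n
    induction n with
    | zero =>
      intro S hS
      rw [card_eq_zero] at hS
      subst hS
      exact ⟨fun _ => 0, by simp, by simp, by simp⟩
    | succ n ih =>
      intro S hS
      have hx : ∃ x ∈ S, (S.filter (fun y => x ∈ B y)).card ≤ c := by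
        by_contra hc
        push Not at hc
        have h1 : ∑ x ∈ S, (S.filter (fun y => x ∈ B y)).card
            = ∑ y ∈ S, (S.filter (fun x => x ∈ B y)).card := by
          simp only [card_filter]
          exact sum_comm
        have h2 : ∑ y ∈ S, (S.filter (fun x => x ∈ B y)).card ≤ ∑ y ∈ S, c :=
          sum_le_sum fun y _ => le_trans (card_le_card fun x hx => (mem_filter.1 hx).2) (hB y)
        have h3 : ∑ x ∈ S, c < ∑ x ∈ S, (S.filter (fun y => x ∈ B y)).card :=
          sum_lt_sum_of_nonempty (card_pos.1 (by omega)) hc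
        omega
      obtain ⟨x, hxS, hx⟩ := hx
      obtain ⟨r, r1, r2, r3⟩ := ih (S.erase x) (by rw [card_erase_of_mem hxS]; omega)
      have hne : ∀ y ∈ S, y ≠ x → Function.update r x n y = r y ∧ r y < n := fun y hy e =>
        ⟨Function.update_of_ne e _ _, r2 y (mem_erase.2 ⟨e, hy⟩)⟩
      refine ⟨Function.update r x n, ?_, ?_, ?_⟩
      · intro a ha b hb e
        by_cases h1 : a = x <;> by_cases h2 : b = x
        · rw [h1, h2]
        · have := hne b hb h2
          rw [h1, Function.update_self] at e
          omega
        · have := hne a ha h1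
          rw [h2, Function.update_self] at e
          omega
        · rw [(hne a ha h1).1, (hne b hb h2).1] at e
          exact r1 (mem_erase.2 ⟨h1, ha⟩) (mem_erase.2 ⟨h2, hb⟩) e
      · intro a ha
        by_cases h1 : a = x
        · rw [h1, Function.update_self]; omega
        · have := hne a ha h1
          omega
      · intro a ha
        by_cases h1 : a = x
        · subst h1
          exact le_trans (card_le_card fun y hy =>
            mem_filter.2 ⟨(mem_filter.1 hy).1, (mem_filter.1 hy).2.2⟩) hx
        · refine le_trans (card_le_card fun y hy => ?_) (r3 a (mem_erase.2 ⟨h1, ha⟩))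
          obtain ⟨y1, y2, y3⟩ := mem_filter.1 hy
          have ha' := hne a ha h1
          have hyx : y ≠ x := by
            rintro rfl
            rw [Function.update_self] at y2
            omega
          have hy' := hne y y1 hyx
          exact mem_filter.2 ⟨mem_erase.2 ⟨hyx, y1⟩, by omega, y3⟩
  obtain ⟨r, r1, -, r3⟩ := key _ univ rfl
  exact ⟨r, fun a b e => r1 (by simp) (by simp) e, fun x => r3 x (mem_univ _)⟩

theorem win_of_B (H : SimpleGraph V) (B : V → Finset V) (c : ℕ) (hB : ∀ v, (B v).card ≤ c)
    (h1 : ∀ x y, H.Adj x y → x ∈ B y ∨ y ∈ B x)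
    (h2 : ∀ x z y, H.Adj x z → H.Adj z y → x ∈ B y ∨ z ∈ B x ∨ y ∈ B x) :
    AWin H (6 * c + 2) ∅ true := by
  obtain ⟨r, r1, r2⟩ := exists_order B c hB
  refine win_of_bound (r := r) _ fun M A t h u hu => ?_
  set E := univ.filter (fun y => r y ≤ r u ∧ u ∈ B y) with hE
  have hEc : E.card ≤ c := r2 u
  have hsub : M.filter (H.Adj u) ⊆ (E ∪ B u) ∪
      (E ∪ B u).biUnion (fun y => A.filter (fun z => t z = y ∧ r y < r z)) := by
    intro z hz
    obtain ⟨z1, z2⟩ := mem_filter.1 hz
    by_cases hzB : z ∈ B u
    · exact mem_union_left _ (mem_union_right _ hzB)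
    by_cases hl : r z ≤ r u
    · refine mem_union_left _ (mem_union_left _ (mem_filter.2 ⟨mem_univ _, hl, ?_⟩))
      exact (h1 u z z2).resolve_right hzB
    · have hA := h.1 z1
      obtain ⟨a, b⟩ := h.2.1 z hA u (by omega) z2.symm hu
      refine mem_union_right _ (mem_biUnion.2 ⟨t z, ?_, mem_filter.2 ⟨hA, rfl, by omega⟩⟩)
      rcases h2 u z (t z) z2 b with e | e | e
      · exact mem_union_left _ (mem_filter.2 ⟨mem_univ _, a, e⟩)
      · exact absurd e hzB
      · exact mem_union_right _ e
  have c1 : (E ∪ B u).card ≤ 2 * c := by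
    have := card_union_le E (B u)
    have := hB u
    omega
  have c2 : ((E ∪ B u).biUnion (fun y => A.filter (fun z => t z = y ∧ r y < r z))).card
      ≤ (E ∪ B u).card * 2 := by
    refine card_biUnion_le_card_mul _ _ _ fun y _ => le_trans (h.2.2 y) ?_
    split_ifs <;> omega
  have c3 := card_le_card hsub
  have c4 := card_union_le (E ∪ B u)
    ((E ∪ B u).biUnion (fun y => A.filter (fun z => t z = y ∧ r y < r z)))
  omega

theorem clique_le (H : SimpleGraph V) (hH : ∀ u v, u ≠ v → H.Adj u v) {s : ℕ} {M : Finset V}
    {t : Bool} (h : AWin H s M t) (hM : M ≠ univ) : Fintype.card V ≤ s := by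
  have aux : ∀ (M : Finset V) (v : V), v ∉ M → insert v M = univ →
      (M.filter (H.Adj v)).card + 1 = Fintype.card V := by
    intro M v hv e
    rw [filter_true_of_mem fun u hu => hH v u (fun e' => hv (by rw [e']; exact hu)), ← card_insert_of_notMem hv,
      e, card_univ]
  induction h with
  | done M t e => exact absurd e hM
  | alice M v hv hs _ ih =>
    by_cases e : insert v M = univ
    · rw [← aux M v hv e]; exact hs
    · exact ih e
  | bob M _ hs _ ih =>
    obtain ⟨v, hv⟩ : ∃ v, v ∉ M := by
      by_contra hc
      push Not at hc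
      exact hM (eq_univ_iff_forall.2 hc)
    by_cases e : insert v M = univ
    · rw [← aux M v hv e]; exact hs v hv
    · exact ih v hv e

end Pool.Agent.H.MP_c9f8d2_co
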