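import Mathlib
import Pool.Agent.H.MP_c9f8d2_co.A

set_option autoImplicit false

namespace Pool.Agent.H.MP_c9f8d2_co

open Finset
open scoped Classical

/-- game colouring number -/
noncomputable def colg {V : Type} [Fintype V] (H : SimpleGraph V) : ℕ :=
  sInf {s | AWin H s ∅ true}

/-- m-th power -/
def gpow {V : Type} (G : SimpleGraph V) (m : ℕ) : SimpleGraph V where
  Adj u v := u ≠ v ∧ G.edist u v ≤ m
  symm := ⟨fun u v h => ⟨h.1.symm, by rw [G.edist_comm]; exact h.2⟩⟩
  loopless := ⟨fun u h => h.1 rfl⟩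

/-- k-tree whose vertices are numbered in the order of its construction -/
def IsKTree (k N : ℕ) (H : SimpleGraph (Fin N)) : Prop :=
  k + 1 ≤ N ∧ (∀ u v : Fin N, u ≠ v → u.val < k → v.val < k → H.Adj u v) ∧
    ∀ v : Fin N, k ≤ v.val → H.IsNClique k (univ.filter (fun u => u < v ∧ H.Adj u v))

/-- subgraph of a k-tree -/
def SubKTree (k : ℕ) {V : Type} (G : SimpleGraph V) : Prop :=
  ∃ (N : ℕ) (H : SimpleGraph (Fin N)) (f : V → Fin N), IsKTree k N H ∧ Function.Injective f ∧
    ∀ u v, G.Adj u v → H.Adj (f u) (f v)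

noncomputable def It {α : Type} (F : α → Finset α) : ℕ → α → Finset α
  | 0, a => {a}
  | j + 1, a => (insert a (F a)).biUnion (It F j)

theorem It_card {α : Type} (F : α → Finset α) (c : ℕ) (h : ∀ a, (F a).card ≤ c) (j : ℕ) :
    ∀ a, (It F j a).card ≤ (c + 1) ^ j := by
  induction j with
  | zero => intro a; simp [It]
  | succ j ih =>
    intro a
    rw [It, pow_succ']
    refine le_trans (card_biUnion_le_card_mul _ _ _ fun b _ => ih b) ?_
    exact Nat.mul_le_mul_right _ (le_trans (card_insert_le _ _) (by have := h a; omega))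

theorem It_iff {α : Type} (F : α → Finset α) {j : ℕ} {a x : α} :
    x ∈ It F (j + 1) a ↔ ∃ b, (b = a ∨ b ∈ F a) ∧ x ∈ It F j b := by
  rw [It]
  simp only [mem_biUnion, mem_insert]

theorem It_succ {α : Type} (F : α → Finset α) {j : ℕ} {a x : α} (h : x ∈ It F j a) :
    x ∈ It F (j + 1) a := by
  rw [It]
  exact mem_biUnion.2 ⟨a, mem_insert_self _ _, h⟩

theorem It_mono {α : Type} (F : α → Finset α) {j l : ℕ} (hl : j ≤ l) {a x : α}
    (h : x ∈ It F j a) : x ∈ It F l a := by
  induction hl with
  | refl => exact h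
  | step _ ih => exact It_succ F ih

theorem ball_walk {V : Type} [Fintype V] (G : SimpleGraph V) {w x : V} (p : G.Walk w x) :
    x ∈ It (fun a => univ.filter (G.Adj a)) p.length w := by
  induction p with
  | nil => simp [It]
  | cons h p ih =>
    rw [SimpleGraph.Walk.length_cons, It]
    exact mem_biUnion.2 ⟨_, mem_insert_of_mem (mem_filter.2 ⟨mem_univ _, h⟩), ih⟩

section desc
variable {N : ℕ} (H : SimpleGraph (Fin N))

noncomputable def back (v : Fin N) : Finset (Fin N) := univ.filter (fun u => u < v ∧ H.Adj u v)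

theorem desc_step (hc : ∀ v a b, a ∈ back H v → b ∈ back H v → a = b ∨ H.Adj a b) (j : ℕ) :
    ∀ a b w, (a = b ∨ H.Adj a b) → w ∈ It (back H) j b → w ≤ a → w ∈ It (back H) (j + 1) a := by
  have easy : ∀ j a b w, (a = b ∨ H.Adj a b) → w ∈ It (back H) j b → b ≤ a →
      w ∈ It (back H) (j + 1) a := by
    intro j a b w hab hw hl
    rcases hab with rfl | hab
    · exact It_succ _ hw
    · exact (It_iff _).2 ⟨b, Or.inr (mem_filter.2 ⟨mem_univ _,
        lt_of_le_of_ne hl hab.ne.symm, hab.symm⟩), hw⟩
  induction j with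
  | zero =>
    intro a b w hab hw hl
    have : w = b := by simpa [It] using hw
    subst this
    exact easy _ _ _ _ hab hw hl
  | succ j ih =>
    intro a b w hab hw hl
    by_cases hba : b ≤ a
    · exact easy _ _ _ _ hab hw hba
    · have hab' : H.Adj a b := hab.resolve_left (fun e => hba e.ge)
      obtain ⟨c, hc1, hc2⟩ := (It_iff _).1 hw
      rcases hc1 with rfl | hc1
      · exact It_succ _ (ih a _ w hab hc2 hl)
      · exact It_succ _ (ih a c w
          (hc b a c (mem_filter.2 ⟨mem_univ _, not_le.1 hba, hab'⟩) hc1) hc2 hl)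

theorem desc_walk (hc : ∀ v a b, a ∈ back H v → b ∈ back H v → a = b ∨ H.Adj a b)
    {V : Type} (G : SimpleGraph V) (f : V → Fin N) (hf : ∀ u v, G.Adj u v → H.Adj (f u) (f v))
    {x w : V} (p : G.Walk x w) (hp : ∀ u ∈ p.support, f w ≤ f u) :
    f w ∈ It (back H) p.length (f x) := by
  induction p with
  | nil => simp [It]
  | cons h p ih =>
    rw [SimpleGraph.Walk.length_cons]
    refine desc_step H hc _ _ _ _ (Or.inr (hf _ _ h)) (ih fun u hu => hp u ?_) (hp _ ?_)
    · simp [hu]
    · simp

theorem ktree_back {k : ℕ} (h : IsKTree k N H) :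
    (∀ v a b, a ∈ back H v → b ∈ back H v → a = b ∨ H.Adj a b) ∧ ∀ v, (back H v).card ≤ k := by
  obtain ⟨-, h2, h3⟩ := h
  refine ⟨fun v a b ha hb => ?_, fun v => ?_⟩
  · by_cases e : a = b
    · exact Or.inl e
    right
    by_cases hv : k ≤ v.val
    · exact (h3 v hv).isClique ha hb e
    · have a1 : a.val < v.val := (mem_filter.1 ha).2.1
      have b1 : b.val < v.val := (mem_filter.1 hb).2.1
      exact h2 a b e (by omega) (by omega)
  · by_cases hv : k ≤ v.val
    · exact (h3 v hv).card_eq.le
    · have : back H v ⊆ Iio v := fun u hu => mem_Iio.2 (mem_filter.1 hu).2.1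
      have := card_le_card this
      rw [Fin.card_Iio] at this
      omega

end desc

theorem upper {V : Type} [Fintype V] (G : SimpleGraph V) (k m D : ℕ) (hk : SubKTree k G)
    (hD : ∀ v, G.degree v ≤ D) :
    AWin (gpow G m) (6 * ((k + 1) ^ (2 * m) * (D + 1) ^ (m / 2)) + 2) ∅ true := by
  obtain ⟨N, H, f, hH, f1, f2⟩ := hk
  obtain ⟨hc, hb⟩ := ktree_back H hH
  let Dn : V → Finset V := fun v => univ.filter (fun w => f w ∈ It (back H) (2 * m) (f v))
  let Ball : V → Finset V := It (fun a => univ.filter (G.Adj a)) (m / 2)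
  let B : V → Finset V := fun v => (Dn v).biUnion Ball
  have hDn : ∀ v, (Dn v).card ≤ (k + 1) ^ (2 * m) := fun v =>
    le_trans (card_le_card_of_injOn f (fun w hw => (mem_filter.1 hw).2) f1.injOn)
      (It_card _ _ hb _ _)
  have hBall : ∀ v, (Ball v).card ≤ (D + 1) ^ (m / 2) := by
    refine It_card _ _ (fun a => le_trans (le_of_eq ?_) (hD a)) _
    rw [← SimpleGraph.card_neighborFinset_eq_degree, SimpleGraph.neighborFinset_eq_filter]
  have hB : ∀ v, (B v).card ≤ (k + 1) ^ (2 * m) * (D + 1) ^ (m / 2) := fun v =>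
    le_trans (card_biUnion_le_card_mul _ _ _ fun w _ => hBall w) (Nat.mul_le_mul_right _ (hDn v))
  have half : ∀ {x z w : V} (p : G.Walk x z), p.length ≤ m → w ∈ p.support →
      x ∈ Ball w ∨ z ∈ Ball w := by
    intro x z w p hp hw
    have e := congrArg SimpleGraph.Walk.length (p.take_spec hw)
    rw [SimpleGraph.Walk.length_append] at e
    by_cases h : (p.takeUntil w hw).length ≤ m / 2
    · left
      refine It_mono _ ?_ (ball_walk G (p.takeUntil w hw).reverse)
      rwa [SimpleGraph.Walk.length_reverse]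
    · right
      exact It_mono _ (by omega) (ball_walk G (p.dropUntil w hw))
  have dn : ∀ {x y w : V} (p : G.Walk x y), p.length ≤ 2 * m → w ∈ p.support →
      (∀ u ∈ p.support, f w ≤ f u) → w ∈ Dn x := by
    intro x y w p hp hw hmin
    refine mem_filter.2 ⟨mem_univ _, It_mono _ ((p.length_takeUntil_le_length hw).trans hp)
      (desc_walk H hc G f f2 (p.takeUntil w hw) fun u hu => hmin u ?_)⟩
    exact p.support_takeUntil_subset_support hw hu
  have key : ∀ {x z y : V} (p : G.Walk x z) (q : G.Walk z y), p.length ≤ m → q.length ≤ m →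
      x ∈ B y ∨ z ∈ B x ∨ y ∈ B x := by
    intro x z y p q hp hq
    obtain ⟨w, hw, hmin⟩ := exists_min_image (p.append q).support.toFinset f
      ⟨x, by simp⟩
    simp only [List.mem_toFinset] at hw hmin
    have hl : (p.append q).length ≤ 2 * m := by rw [SimpleGraph.Walk.length_append]; omega
    have d1 : w ∈ Dn x := dn _ hl hw hmin
    have d2 : w ∈ Dn y := dn (p.append q).reverse (by rwa [SimpleGraph.Walk.length_reverse])
      (by rwa [SimpleGraph.Walk.support_reverse, List.mem_reverse])
      (fun u hu => hmin u (by rwa [SimpleGraph.Walk.support_reverse, List.mem_reverse] at hu))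
    rcases (SimpleGraph.Walk.mem_support_append_iff p q).1 hw with h | h
    · rcases half p hp h with e | e
      · exact Or.inl (mem_biUnion.2 ⟨w, d2, e⟩)
      · exact Or.inr (Or.inl (mem_biUnion.2 ⟨w, d1, e⟩))
    · rcases half q hq h with e | e
      · exact Or.inr (Or.inl (mem_biUnion.2 ⟨w, d1, e⟩))
      · exact Or.inr (Or.inr (mem_biUnion.2 ⟨w, d1, e⟩))
  have wk : ∀ {x y : V}, (gpow G m).Adj x y → ∃ p : G.Walk x y, p.length ≤ m := by
    intro x y h
    have h2 : G.edist x y ≤ m := h.2
    obtain ⟨p, hp⟩ := SimpleGraph.exists_walk_of_edist_ne_top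
      (ne_top_of_le_ne_top (ENat.natCast_ne_top m) h2)
    exact ⟨p, by rw [← hp] at h2; exact_mod_cast h2⟩
  refine win_of_B _ B _ hB (fun x y h => ?_) (fun x z y h1 h2 => ?_)
  · obtain ⟨p, hp⟩ := wk h
    rcases key p .nil hp (by simp) with e | e | e
    · exact Or.inl e
    · exact Or.inr e
    · exact Or.inr e
  · obtain ⟨p, hp⟩ := wk h1
    obtain ⟨q, hq⟩ := wk h2
    exact key p q hp hq

/-- tree with parent i / d -/
def tree (d n : ℕ) : SimpleGraph (Fin n) where
  Adj i j := i ≠ j ∧ (i.val / d = j.val ∨ j.val / d = i.val)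
  symm := ⟨fun _ _ h => ⟨h.1.symm, h.2.symm⟩⟩
  loopless := ⟨fun _ h => h.1 rfl⟩

theorem tree_deg (d n : ℕ) (hd : 0 < d) (v : Fin n) : (tree d n).degree v ≤ d + 1 := by
  rw [← SimpleGraph.card_neighborFinset_eq_degree]
  have : ((tree d n).neighborFinset v).card ≤ (insert (v.val / d) (Ico (v.val * d) (v.val * d + d))).card := by
    refine card_le_card_of_injOn Fin.val (fun u hu => ?_) Fin.val_injective.injOn
    have hu' : (tree d n).Adj v u := by simpa using hu
    rcases hu'.2 with e | e
    · simp [e]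
    · refine mem_coe.2 (mem_insert_of_mem (mem_Ico.2 ?_))
      rw [← e]
      exact ⟨Nat.div_mul_le_self _ _, Nat.lt_div_mul_add hd⟩
  refine this.trans ((card_insert_le _ _).trans ?_)
  simp

theorem tree_dist (d n : ℕ) (hd : 0 < d) (hn : 0 < n) (j : ℕ) :
    ∀ v : Fin n, v.val < d ^ j → (tree d n).edist v ⟨0, hn⟩ ≤ j := by
  induction j with
  | zero =>
    intro v hv
    have : v = ⟨0, hn⟩ := Fin.ext (by simpa using hv)
    simp [this]
  | succ j ih =>
    intro v hv
    let u : Fin n := ⟨v.val / d, lt_of_le_of_lt (Nat.div_le_self _ _) v.2⟩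
    have hu := ih u (by rw [pow_succ] at hv; exact (Nat.div_lt_iff_lt_mul hd).2 hv)
    have h1 : (tree d n).edist v u ≤ 1 := by
      by_cases e : v = u
      · rw [← e]; simp
      · exact (SimpleGraph.edist_eq_one_iff_adj.2 (show (tree d n).Adj v u from ⟨e, Or.inl rfl⟩)).le
    calc _ ≤ (tree d n).edist v u + (tree d n).edist u ⟨0, hn⟩ := SimpleGraph.edist_triangle
      _ ≤ 1 + j := add_le_add h1 hu
      _ = _ := by push_cast; ring

def par (k d a : ℕ) : ℕ := if a ≤ k then k - 1 else (a - k) / d + k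

def big (k d n : ℕ) : SimpleGraph (Fin (n + k)) where
  Adj a b := a ≠ b ∧ (a.val + 1 < k ∨ b.val + 1 < k ∨ par k d a.val = b.val ∨ par k d b.val = a.val)
  symm := ⟨fun _ _ h => ⟨h.1.symm, by have := h.2; tauto⟩⟩
  loopless := ⟨fun _ h => h.1 rfl⟩

theorem par_lt (k d a : ℕ) (hk : 1 ≤ k) (hd : 2 ≤ d) (ha : k ≤ a) :
    par k d a < a ∧ k ≤ par k d a + 1 := by
  unfold par
  split_ifs with h
  · omega
  · have := Nat.div_lt_self (n := a - k) (k := d) (by omega) (by omega)
    generalize (a - k) / d = q at this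
    omega

theorem tree_sub (k d n : ℕ) (hk : 1 ≤ k) (hd : 2 ≤ d) (hn : 0 < n) : SubKTree k (tree d n) := by
  refine ⟨n + k, big k d n, fun v => ⟨v.val + k, by omega⟩, ⟨by omega, ?_, ?_⟩, ?_, ?_⟩
  · intro u v e hu hv
    have : u.val ≠ v.val := fun h => e (Fin.ext h)
    exact ⟨e, by omega⟩
  · intro v hv
    obtain ⟨p1, p2⟩ := par_lt k d v.val hk hd hv
    have hmem : ∀ u : Fin (n + k), (u < v ∧ (big k d n).Adj u v) ↔
        (u.val + 1 < k ∨ u.val = par k d v.val) := by
      intro u
      constructor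
      · rintro ⟨h1, -, h2⟩
        have h1' : u.val < v.val := h1
        rcases h2 with h | h | h | h
        · exact Or.inl h
        · omega
        · by_cases hu : k ≤ u.val
          · have := par_lt k d u.val hk hd hu
            omega
          · rw [par, if_pos (by omega)] at h
            omega
        · exact Or.inr h.symm
      · intro h
        have h1 : u.val < v.val := by omega
        refine ⟨h1, fun e => by rw [e] at h1; omega, ?_⟩
        rcases h with h | h
        · exact Or.inl h
        · exact Or.inr (Or.inr (Or.inr h.symm))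
    constructor
    · intro a ha b hb e
      have ha' := (hmem a).1 (mem_filter.1 ha).2
      have hb' := (hmem b).1 (mem_filter.1 hb).2
      have : a.val ≠ b.val := fun h => e (Fin.ext h)
      exact ⟨e, by omega⟩
    · have : (univ.filter (fun u => u < v ∧ (big k d n).Adj u v)).card
          = (insert (par k d v.val) (range (k - 1))).card := by
        refine card_bij (fun u _ => u.val) ?_ (fun a _ b _ e => Fin.ext e) ?_
        · intro u hu
          have := (hmem u).1 (mem_filter.1 hu).2
          simp only [mem_insert, mem_range]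
          omega
        · intro b hb
          simp only [mem_insert, mem_range] at hb
          have := v.2
          exact ⟨⟨b, by omega⟩, mem_filter.2 ⟨mem_univ _, (hmem _).2 (by simp only; omega)⟩, rfl⟩
      rw [this, card_insert_of_notMem (by simp only [mem_range]; omega), card_range]
      omega
  · intro a b e
    have := congrArg Fin.val e
    exact Fin.ext (by simp only at this; omega)
  · have aux : ∀ a b : ℕ, a ≠ b → a / d = b → par k d (a + k) = b + k := by
      intro a b h e
      have : a ≠ 0 := by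
        rintro rfl
        simp at e
        omega
      rw [par, if_neg (by omega), Nat.add_sub_cancel, e]
    intro u v h
    have hne : u.val ≠ v.val := fun e => h.1 (Fin.ext e)
    refine ⟨fun e => hne (by have := congrArg Fin.val e; simp only at this; omega), ?_⟩
    rcases h.2 with e | e
    · exact Or.inr (Or.inr (Or.inl (aux _ _ hne e)))
    · exact Or.inr (Or.inr (Or.inr (aux _ _ hne.symm e)))

theorem lower (k m D : ℕ) (hk : 1 ≤ k) (hD : 3 ≤ D) :
    ∃ (n : ℕ) (G : SimpleGraph (Fin n)), SubKTree k G ∧ (∀ v, G.degree v ≤ D) ∧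
      (D - 1) ^ (m / 2) ≤ colg (gpow G m) := by
  have hn : 0 < (D - 1) ^ (m / 2) := pow_pos (by omega) _
  have h1 := tree_sub k (D - 1) _ hk (by omega) hn
  have h2 : ∀ v, (tree (D - 1) ((D - 1) ^ (m / 2))).degree v ≤ D := fun v =>
    (tree_deg _ _ (by omega) v).trans (by omega)
  refine ⟨_, _, h1, h2, ?_⟩
  have hw : AWin _ (colg (gpow (tree (D - 1) ((D - 1) ^ (m / 2))) m)) ∅ true :=
    Nat.sInf_mem (s := {s | AWin _ s ∅ true}) ⟨_, upper _ k m D h1 h2⟩
  have hall : ∀ u v, u ≠ v → (gpow (tree (D - 1) ((D - 1) ^ (m / 2))) m).Adj u v := by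
    intro u v e
    refine ⟨e, ?_⟩
    have a := tree_dist (D - 1) _ (by omega) hn (m / 2) u u.2
    have b := tree_dist (D - 1) _ (by omega) hn (m / 2) v v.2
    rw [SimpleGraph.edist_comm] at b
    calc _ ≤ _ := SimpleGraph.edist_triangle
      _ ≤ ((m / 2 : ℕ) : ℕ∞) + ((m / 2 : ℕ) : ℕ∞) := add_le_add a b
      _ ≤ _ := by
        have : m / 2 + m / 2 ≤ m := by omega
        exact_mod_cast this
  have := clique_le _ hall hw (by
    intro e
    have : (⟨0, hn⟩ : Fin _) ∈ (∅ : Finset _) := e ▸ mem_univ _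
    simp at this)
  simpa using this

end Pool.Agent.H.MP_c9f8d2_co
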